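import Mathlib
import Pool.Agent.H136.SunMixing

set_option autoImplicit false

namespace Pool.Agent.Results.MP_fe6464_co.SunStrict

open Pool.Agent.H136.SunMixing

/-- proper colourings with the colours `0, …, k-1` -/
def IsProper {V : Type} (G : SimpleGraph V) {k : ℕ} (f : V → Fin k) : Prop :=
  ∀ u v, G.Adj u v → f u ≠ f v

/-- `G` is `k`-mixing: any two proper `k`-colourings are joined by proper `k`-colourings,
consecutive ones differing in at most one vertex -/
def KMixing {V : Type} (G : SimpleGraph V) (k : ℕ) : Prop :=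
  ∀ f g : V → Fin k, IsProper G f → IsProper G g →
    Relation.ReflTransGen
      (fun f g : V → Fin k => IsProper G f ∧ IsProper G g ∧ ∃ v, ∀ u, u ≠ v → g u = f u) f g

/-- the rationals `ℓ` such that `G` is `(k,q)`-mixing for all positive integers `k, q` with
`k / q ≥ ℓ`, as real numbers -/
def thresholds {V : Type} (G : SimpleGraph V) : Set ℝ :=
  {ℓ | ∃ r : ℚ, (r : ℝ) = ℓ ∧
    ∀ k q : ℕ, 0 < k → 0 < q → r ≤ (k : ℚ) / (q : ℚ) → Mixing G k q}

lemma kmixing_iff {V : Type} (G : SimpleGraph V) (k : ℕ) (hk : 0 < k) :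
    KMixing G k ↔ Mixing G k 1 := by
  -- values as integers, and back
  let up : (V → Fin k) → V → ℤ := fun f v => ((f v : ℕ) : ℤ)
  let down : (V → ℤ) → V → Fin k := fun h v => ⟨(h v).toNat % k, Nat.mod_lt _ hk⟩
  have hup : ∀ f, IsProper G f → IsCol G k 1 (up f) := by
    intro f hf
    refine ⟨fun v => ⟨by positivity, ?_⟩, fun u v huv => ?_⟩
    · have : ((f v : ℕ) : ℤ) < k := by exact_mod_cast (f v).2
      exact this
    · have h1 := hf u v huv
      have h2 : ((f u : ℕ) : ℤ) ≠ ((f v : ℕ) : ℤ) := fun h => h1 (Fin.ext (by exact_mod_cast h))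
      have h3 := (f u).2
      have h4 := (f v).2
      have hD : D k 1 (up f u) (up f v) := by
        rw [D_iff]
        simp only [up]
        push_cast
        omega
      exact hD
  have hdown : ∀ h, IsCol G k 1 h → IsProper G (down h) := by
    intro h hh u v huv he
    have h1 := hh.1 u
    have h2 := hh.1 v
    have h3 : D k 1 (h u) (h v) := hh.2 u v huv
    rw [D_iff] at h3
    simp only [down, Fin.mk.injEq] at he
    rw [Nat.mod_eq_of_lt (by omega), Nat.mod_eq_of_lt (by omega)] at he
    push_cast at h3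
    omega
  have hdu : ∀ f, down (up f) = f := by
    intro f
    funext v
    apply Fin.ext
    simp only [down, up, Int.toNat_natCast]
    exact Nat.mod_eq_of_lt (f v).2
  have hud : ∀ h, IsCol G k 1 h → up (down h) = h := by
    intro h hh
    funext v
    have h1 := hh.1 v
    simp only [up, down]
    rw [Nat.mod_eq_of_lt (by omega)]
    exact Int.toNat_of_nonneg h1.1
  constructor
  · intro hmix f g hf hg
    have hp := hmix (down f) (down g) (hdown f hf) (hdown g hg)
    have : Relation.ReflTransGen (Move G k 1) (up (down f)) (up (down g)) :=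
      hp.lift (p := Move G k 1) up (by
      rintro a b ⟨ha, hb, v, hv⟩
      exact ⟨hup a ha, hup b hb, v, fun u hu => by simp only [up]; rw [hv u hu]⟩)
    rw [hud f hf, hud g hg] at this
    exact this
  · intro hmix f g hf hg
    have hp := hmix (up f) (up g) (hup f hf) (hup g hg)
    have : Relation.ReflTransGen (fun f g : V → Fin k => IsProper G f ∧ IsProper G g ∧
        ∃ v, ∀ u, u ≠ v → g u = f u) (down (up f)) (down (up g)) :=
      hp.lift (p := fun f g : V → Fin k => IsProper G f ∧ IsProper G g ∧
      ∃ v, ∀ u, u ≠ v → g u = f u) down (by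
      rintro a b ⟨ha, hb, v, hv⟩
      exact ⟨hdown a ha, hdown b hb, v, fun u hu => by simp only [down]; rw [hv u hu]⟩)
    rw [hdu, hdu] at this
    exact this

/-- **Answer to Q1: yes.**  There is a finite non-bipartite graph `G` with mixing threshold `5`
and circular mixing threshold `4`. -/
theorem result : ∃ (V : Type) (_ : Fintype V) (G : SimpleGraph V), ¬ G.Colorable 2 ∧
    IsLeast {ℓ : ℕ | ∀ k, ℓ ≤ k → KMixing G k} 5 ∧ IsGLB (thresholds G) (4 : ℝ) := by
  refine ⟨Fin 7, inferInstance, sun, not_bipartite, ⟨?_, ?_⟩, ⟨?_, ?_⟩⟩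
  · intro k hk
    rw [kmixing_iff sun k (by omega)]
    exact mixing_sun (by norm_num) (by omega)
  · intro ℓ hℓ
    by_contra hlt
    apply not_mixing_sun
    rw [← kmixing_iff sun 4 (by norm_num)]
    exact hℓ 4 (by omega)
  · rintro ℓ ⟨r, rfl, h⟩
    by_contra hlt
    apply not_mixing_sun
    apply h 4 1 (by norm_num) (by norm_num)
    have h1 : (r : ℝ) ≤ ((4 : ℚ) : ℝ) := by simpa using (not_le.1 hlt).le
    have h2 : r ≤ 4 := by exact_mod_cast h1
    simpa using h2
  · intro x hx
    by_contra hlt
    obtain ⟨r, hr1, hr2⟩ := exists_rat_btwn (not_le.1 hlt)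
    have hmem : (r : ℝ) ∈ thresholds sun := by
      refine ⟨r, rfl, fun k q _ hq hkq => mixing_sun hq ?_⟩
      have h4 : (4 : ℚ) < r := by
        have : ((4 : ℚ) : ℝ) < r := by simpa using hr1
        exact_mod_cast this
      have hq' : (0 : ℚ) < q := by exact_mod_cast hq
      have h5 : (4 : ℚ) < k / q := lt_of_lt_of_le h4 hkq
      rw [lt_div_iff₀ hq'] at h5
      exact_mod_cast h5
    have := hx hmem
    linarith

end Pool.Agent.Results.MP_fe6464_co.SunStrict
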